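import Mathlib
import Pool.Graph.R_seed8.TH773.PSet.Defs

/-!
# Families of nowhere dense P-sets which cover `ω*`, and the dominating number
-/

set_option autoImplicit false

namespace Pool.Agent.KS6_46.PN

open Cardinal Pool.Agent.TH773.PSet

universe u

/-- There is a family, indexed by `Λ`, of nowhere dense P-sets which covers `ω*`: a family `F` of
filters such that each `F i` corresponds to a nowhere dense P-set, and every nonprincipal
ultrafilter includes some `F i`. -/
def CoveredBy (Λ : Type) (P : Type u) [Preorder P] : Set P :=
  fex fun F : Λ → FName P =>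
    fand (fall fun i => fand (IsFilter (F i)) (fand (IsP (F i)) (IsNwd (F i))))
      (fall fun U : FName P => fimp (IsUltra U) (fex fun i => Incl (F i) U))

/-- There is a family, indexed by `Λ`, of nowhere dense closed sets which covers `ω*`. -/
def CoveredByNwd (Λ : Type) (P : Type u) [Preorder P] : Set P :=
  fex fun F : Λ → FName P =>
    fand (fall fun i => fand (IsFilter (F i)) (IsNwd (F i)))
      (fall fun U : FName P => fimp (IsUltra U) (fex fun i => Incl (F i) U))

/-- The topological statement: `ω*` is the union of a family, indexed by `Λ`, of nowhere dense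
P-sets. -/
def OmegaStarCoveredBy (Λ : Type) : Prop :=
  ∃ F : Λ → Set OmegaStar, (∀ i, IsNowhereDense (F i) ∧ IsPSet (F i)) ∧ ⋃ i, F i = Set.univ

/-- The topological statement: `ω*` is the union of a family, indexed by `Λ`, of nowhere dense
sets. -/
def OmegaStarCoveredByNwd (Λ : Type) : Prop :=
  ∃ F : Λ → Set OmegaStar, (∀ i, IsNowhereDense (F i)) ∧ ⋃ i, F i = Set.univ

/-- The family `D` of functions is dominating. -/
def Dominating (D : Set (ℕ → ℕ)) : Prop := ∀ f : ℕ → ℕ, ∃ g ∈ D, ∃ N, ∀ n, N ≤ n → f n ≤ g n

/-- The dominating number: the least cardinality of a dominating family. -/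
noncomputable def 𝔡 : Cardinal.{0} := sInf {κ | ∃ D : Set (ℕ → ℕ), #D = κ ∧ Dominating D}

end Pool.Agent.KS6_46.PN
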