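import Mathlib
import Pool.Graph.R_seed8.TH773.PSet.Ground
import Pool.Agent.KS6_46.PN.Defs

/-!
# The sentences in the ground model

For the trivial forcing, the sentences `CoveredBy` and `CoveredByNwd` are equivalent to the
corresponding topological statements about the space `ω*`.
-/

set_option autoImplicit false
set_option linter.unusedSectionVars false
set_option linter.unusedSimpArgs false

namespace Pool.Agent.KS6_46.PN

open Set Filter Topology Pool.Agent.TH773.PSet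

theorem u_CoveredBy {Λ : Type} : () ∈ CoveredBy Λ Unit ↔
    ∃ F : Λ → Set (Set ℕ), (∀ i, CF (F i) ∧ CP (F i) ∧ CN (F i)) ∧
      ∀ U, CU U → ∃ i, F i ⊆ U := by
  unfold CoveredBy
  simp only [u_fex, u_fand, u_fall, u_fimp, u_IsFilter, u_IsUltra, u_IsP, u_IsNwd, u_Incl]
  constructor
  · rintro ⟨F, h1, h2⟩
    exact ⟨fun i => e2 (F i), h1, e2.surjective.forall.2 h2⟩
  · rintro ⟨F, h1, h2⟩
    refine ⟨fun i => e2.symm (F i), fun i => ?_, fun U hU => ?_⟩
    · simpa only [e2.apply_symm_apply] using h1 i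
    · simpa only [e2.apply_symm_apply] using h2 _ hU

theorem u_CoveredByNwd {Λ : Type} : () ∈ CoveredByNwd Λ Unit ↔
    ∃ F : Λ → Set (Set ℕ), (∀ i, CF (F i) ∧ CN (F i)) ∧ ∀ U, CU U → ∃ i, F i ⊆ U := by
  unfold CoveredByNwd
  simp only [u_fex, u_fand, u_fall, u_fimp, u_IsFilter, u_IsUltra, u_IsP, u_IsNwd, u_Incl]
  constructor
  · rintro ⟨F, h1, h2⟩
    exact ⟨fun i => e2 (F i), h1, e2.surjective.forall.2 h2⟩
  · rintro ⟨F, h1, h2⟩
    refine ⟨fun i => e2.symm (F i), fun i => ?_, fun U hU => ?_⟩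
    · simpa only [e2.apply_symm_apply] using h1 i
    · simpa only [e2.apply_symm_apply] using h2 _ hU

/-- A covering family can be taken to consist of nonempty sets. -/
theorem exists_nonempty {Λ : Type} {K : Λ → Set OmegaStar} (hK : ⋃ i, K i = univ) :
    ∃ j, (K j).Nonempty := by
  obtain ⟨x, -⟩ := bas_nonempty (A := univ) fun N => ⟨N, le_rfl, mem_univ N⟩
  obtain ⟨j, hj⟩ := mem_iUnion.1 (hK ▸ mem_univ x : x ∈ ⋃ i, K i)
  exact ⟨j, x, hj⟩

theorem coveredBy_ground (Λ : Type) (p : Unit) :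
    p ∈ CoveredBy Λ Unit ↔ OmegaStarCoveredBy Λ := by
  classical
  refine Iff.trans u_CoveredBy ?_
  constructor
  · rintro ⟨F, h1, h2⟩
    refine ⟨fun i => clo (F i), fun i => ⟨isNowhereDense_clo (h1 i).2.2,
      isPSet_clo (h1 i).1 (h1 i).2.1⟩, eq_univ_of_forall fun x => ?_⟩
    obtain ⟨i, hi⟩ := h2 _ (cu_star x)
    exact mem_iUnion.2 ⟨i, fun S hS => hi hS⟩
  · rintro ⟨K, h1, h2⟩
    obtain ⟨j, hj⟩ := exists_nonempty h2
    let K' : Λ → Set OmegaStar := fun i => if (K i).Nonempty then K i else K j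
    have hK' : ∀ i, (K' i).Nonempty ∧ IsNowhereDense (K' i) ∧ IsPSet (K' i) := by
      intro i
      by_cases h : (K i).Nonempty
      · simp only [K', if_pos h]
        exact ⟨h, h1 i⟩
      · simp only [K', if_neg h]
        exact ⟨hj, h1 j⟩
    refine ⟨fun i => fil (K' i), fun i => ⟨cf_fil (hK' i).1, cp_fil (hK' i).2.2,
      cn_fil (hK' i).2.2.1 (hK' i).2.1⟩, fun U hU => ?_⟩
    obtain ⟨x, hx⟩ := exists_star hU
    obtain ⟨i, hi⟩ := mem_iUnion.1 (h2 ▸ mem_univ x : x ∈ ⋃ i, K i)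
    refine ⟨i, fun S hS => (hx S).1 (hS ?_)⟩
    show x ∈ (if (K i).Nonempty then K i else K j)
    rw [if_pos ⟨x, hi⟩]
    exact hi

theorem coveredByNwd_ground (Λ : Type) (p : Unit) :
    p ∈ CoveredByNwd Λ Unit ↔ OmegaStarCoveredByNwd Λ := by
  classical
  refine Iff.trans u_CoveredByNwd ?_
  constructor
  · rintro ⟨F, h1, h2⟩
    refine ⟨fun i => clo (F i), fun i => isNowhereDense_clo (h1 i).2,
      eq_univ_of_forall fun x => ?_⟩
    obtain ⟨i, hi⟩ := h2 _ (cu_star x)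
    exact mem_iUnion.2 ⟨i, fun S hS => hi hS⟩
  · rintro ⟨K, h1, h2⟩
    obtain ⟨j, hj⟩ := exists_nonempty h2
    let K' : Λ → Set OmegaStar := fun i => closure (if (K i).Nonempty then K i else K j)
    have hK' : ∀ i, (K' i).Nonempty ∧ IsNowhereDense (K' i) := by
      intro i
      by_cases h : (K i).Nonempty
      · simp only [K', if_pos h]
        exact ⟨h.closure, (h1 i).closure⟩
      · simp only [K', if_neg h]
        exact ⟨hj.closure, (h1 j).closure⟩
    refine ⟨fun i => fil (K' i), fun i => ⟨cf_fil (hK' i).1,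
      cn_fil isClosed_closure (hK' i).2⟩, fun U hU => ?_⟩
    obtain ⟨x, hx⟩ := exists_star hU
    obtain ⟨i, hi⟩ := mem_iUnion.1 (h2 ▸ mem_univ x : x ∈ ⋃ i, K i)
    refine ⟨i, fun S hS => (hx S).1 (hS ?_)⟩
    refine subset_closure ?_
    rw [if_pos ⟨x, hi⟩]
    exact hi

end Pool.Agent.KS6_46.PN
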