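import Mathlib
import Pool.Graph.R_seed8.TH773.PSet.CaseA
import Pool.Agent.KS6_46.PN.Defs

/-!
# In a measure algebra extension `ω*` is not covered by `ℵ₁` nowhere dense closed sets
-/

set_option autoImplicit false
set_option linter.unusedSectionVars false

namespace Pool.Agent.KS6_46.PN

open MeasureTheory Set Filter Topology Cardinal Pool.Agent.TH773.PSet

universe u

variable {Ω : Type u} [m0 : MeasurableSpace Ω] {μ : Measure Ω} [IsFiniteMeasure μ]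

/-- Almost everywhere on `p` there are infinitely many `n` with `Q x n`. -/
def AInf (p : Cond μ) (Q : Ω → ℕ → Prop) : Prop :=
  ∀ᵐ x ∂μ, x ∈ p.1 → ∀ N, ∃ n, N ≤ n ∧ Q x n

/-- Almost everywhere on `p` the random set `Y` is almost included in `X`. -/
def ASub (p : Cond μ) (Y X : ℕ → Set Ω) : Prop :=
  ∀ᵐ x ∂μ, x ∈ p.1 → ∃ N, ∀ n, N ≤ n → x ∈ Y n → x ∈ X n

/-! ### Pseudo-intersections -/

theorem exists_pseudo {p : Cond μ} {X : ℕ → ℕ → Set Ω} (hX : ∀ j, Meas (X j))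
    (hinf : ∀ m, AInf p fun x n => ∀ j ≤ m, x ∈ X j n) :
    ∃ Y, Meas Y ∧ (AInf p fun x n => x ∈ Y n) ∧ ∀ j, ASub p Y (X j) := by
  classical
  let c : ℕ → ℕ → Set Ω := fun m k => {x | ∀ j ≤ m, x ∈ X j k}
  have hc : ∀ m k, MeasurableSet (c m k) := by
    intro m k
    have : c m k = ⋂ j, ⋂ (_ : j ≤ m), X j k := by
      ext x
      simp [c]
    rw [this]
    exact MeasurableSet.iInter fun j => MeasurableSet.iInter fun _ => hX j k
  let Y : ℕ → Set Ω := fun k => {x | ∃ m, m ≤ k ∧ x ∈ c m k ∧ ∀ i, m ≤ i → i < k → x ∉ c m i}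
  have hY : Meas Y := by
    intro k
    have : Y k = ⋃ m, ⋃ (_ : m ≤ k), c m k ∩ ⋂ i, ⋂ (_ : m ≤ i), ⋂ (_ : i < k), (c m i)ᶜ := by
      ext x
      simp only [Y, mem_iUnion, mem_iInter, mem_inter_iff, mem_compl_iff, exists_prop,
        mem_ofPred_eq]
    rw [this]
    exact MeasurableSet.iUnion fun m => MeasurableSet.iUnion fun _ => (hc m k).inter
      (MeasurableSet.iInter fun i => MeasurableSet.iInter fun _ => MeasurableSet.iInter fun _ =>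
        (hc m i).compl)
  refine ⟨Y, hY, ?_, fun j => ?_⟩
  · filter_upwards [ae_all_iff.2 hinf] with x hx hxp N
    have hex : ∃ n, N ≤ n ∧ x ∈ c N n := hx N hxp N
    refine ⟨Nat.find hex, (Nat.find_spec hex).1, N, (Nat.find_spec hex).1,
      (Nat.find_spec hex).2, fun i hi hi' hic => Nat.find_min hex hi' ⟨hi, hic⟩⟩
  · filter_upwards [ae_all_iff.2 hinf] with x hx hxp
    have hex : ∀ m, ∃ n, m ≤ n ∧ x ∈ c m n := fun m => hx m hxp m
    choose a ha ha' using hex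
    refine ⟨∑ m ∈ Finset.range j, a m + 1, fun k hk hxk => ?_⟩
    obtain ⟨m, hmk, hc, hmin⟩ := hxk
    by_cases hmj : j ≤ m
    · exact hc j hmj
    · exfalso
      have h1 : a m ≤ ∑ m ∈ Finset.range j, a m :=
        Finset.single_le_sum (f := a) (fun _ _ => Nat.zero_le _)
          (Finset.mem_range.2 (not_le.1 hmj))
      exact hmin (a m) (ha m) (by omega) (ha' m)

/-! ### Maximal families of random sets -/

/-- The members of `𝒮` are random sets, and `p` forces that finite intersections are infinite. -/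
def Cen (p : Cond μ) (𝒮 : Set (ℕ → Set Ω)) : Prop :=
  (∀ X ∈ 𝒮, Meas X) ∧ ∀ s : Finset (ℕ → Set Ω), (s : Set (ℕ → Set Ω)) ⊆ 𝒮 →
    AInf p fun x n => ∀ X ∈ s, x ∈ X n

theorem exists_max {p : Cond μ} {𝒮 : Set (ℕ → Set Ω)} (h𝒮 : Cen p 𝒮) :
    ∃ 𝒯, 𝒮 ⊆ 𝒯 ∧ Cen p 𝒯 ∧ ∀ Y, Meas Y →
      (∀ s : Finset (ℕ → Set Ω), (s : Set (ℕ → Set Ω)) ⊆ 𝒯 →
        AInf p fun x n => (∀ X ∈ s, x ∈ X n) ∧ x ∈ Y n) → Y ∈ 𝒯 := by
  classical
  obtain ⟨𝒯, h1, h2⟩ := zorn_subset_nonempty {𝒯 : Set (ℕ → Set Ω) | Cen p 𝒯} (by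
    intro c hc hchain hne
    refine ⟨⋃₀ c, ⟨fun X hX => ?_, fun s hs => ?_⟩, fun 𝒯 h𝒯 => subset_sUnion_of_mem h𝒯⟩
    · obtain ⟨𝒯, h𝒯, hX⟩ := hX
      exact (hc h𝒯).1 X hX
    · obtain ⟨𝒯, h𝒯, hs'⟩ := hchain.directedOn.exists_mem_subset_of_finset_subset_biUnion hne
        (f := id) (s := s) (by simpa [sUnion_eq_biUnion] using hs)
      exact (hc h𝒯).2 s hs') 𝒮 h𝒮
  refine ⟨𝒯, h1, h2.prop, fun Y hY hs => ?_⟩
  have h3 : Cen p (insert Y 𝒯) := by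
    refine ⟨fun X hX => ?_, fun s hs' => ?_⟩
    · rcases hX with rfl | hX
      · exact hY
      · exact h2.prop.1 X hX
    · have h4 := hs (s.erase Y) (fun X hX => by
        rw [Finset.mem_coe, Finset.mem_erase] at hX
        rcases hs' hX.2 with h | h
        · exact absurd h hX.1
        · exact h)
      unfold AInf at h4 ⊢
      filter_upwards [h4] with x hx hxp N
      obtain ⟨n, hn, h5, h6⟩ := hx hxp N
      refine ⟨n, hn, fun X hX => ?_⟩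
      by_cases hXY : X = Y
      · rw [hXY]; exact h6
      · exact h5 X (Finset.mem_erase.2 ⟨hXY, hX⟩)
  exact h2.le_of_ge h3 (subset_insert _ _) (mem_insert _ _)

variable (μ) in
/-- The name of the family of the values of the members of `𝒯`. -/
def fam (𝒯 : Set (ℕ → Set Ω)) : FName (Cond μ) := fun B => {r | ∃ X ∈ 𝒯, r ∈ Same B (hat μ X)}

section Ultra

variable {p : Cond μ} {𝒯 : Set (ℕ → Set Ω)} (h𝒯 : Cen p 𝒯)
  (hmax : ∀ Y, Meas Y → (∀ s : Finset (ℕ → Set Ω), (s : Set (ℕ → Set Ω)) ⊆ 𝒯 →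
        AInf p fun x n => (∀ X ∈ s, x ∈ X n) ∧ x ∈ Y n) → Y ∈ 𝒯)

include h𝒯 hmax

theorem mem_fam {Y : ℕ → Set Ω} (hY : Meas Y) {q : Cond μ} (hq : q ≤ p) :
    q ∈ Mem (hat μ Y) (fam μ 𝒯) ↔ (fun n => Y n ∪ q.1ᶜ) ∈ 𝒯 := by
  classical
  have hY' : Meas fun n => Y n ∪ q.1ᶜ := fun n => (hY n).union q.2.1.compl
  constructor
  · intro h
    refine hmax _ hY' fun s hs => ?_
    let G : Set Ω := {x | ∀ N, ∃ n, N ≤ n ∧ (∀ X ∈ s, x ∈ X n) ∧ x ∈ Y n}
    have hG : MeasurableSet G := by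
      have : G = ⋂ N : ℕ, ⋃ n : ℕ, ⋃ (_ : N ≤ n), (⋂ X ∈ s, X n) ∩ Y n := by
        ext x
        simp only [G, mem_iInter, mem_iUnion, mem_inter_iff, exists_prop, mem_ofPred_eq]
      rw [this]
      refine MeasurableSet.iInter fun N => MeasurableSet.iUnion fun n =>
        MeasurableSet.iUnion fun _ => MeasurableSet.inter ?_ (hY n)
      exact s.measurableSet_biInter fun X hX => h𝒯.1 X (hs hX) n
    have h1 : q ∈ AE μ G := by
      refine (reg_AE hG).2 q fun q' hq' => ?_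
      obtain ⟨r, hr, B, h2, h3⟩ := mem_fex.1 h q' hq'
      obtain ⟨t, ht, v, ⟨X, hX, hv⟩, htv⟩ := h3 r le_rfl
      refine ⟨t, ht.trans hr, ?_⟩
      have h4 : t ∈ Same (hat μ Y) (hat μ X) :=
        same_trans ((reg_same _ _).1 _ h2 _ ht) ((reg_same _ _).1 _ hv _ htv)
      have h5 := ae_of_same hY (h𝒯.1 X hX) h4
      have h6 := h𝒯.2 (insert X s) (by
        rw [Finset.coe_insert]
        exact insert_subset hX hs)
      rw [mem_AE_iff]
      have h7 : ∀ᵐ x ∂μ, x ∈ t.1 → x ∈ p.1 := mem_AE_iff.1 (((ht.trans hr).trans hq').trans hq)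
      unfold AInf at h6
      filter_upwards [h5, h6, h7] with x h8 h9 h10 h11 N
      obtain ⟨n, hn, h12⟩ := h9 (h10 h11) N
      exact ⟨n, hn, fun Z hZ => h12 Z (Finset.mem_insert_of_mem hZ),
        (h8 h11 n).2 (h12 X (Finset.mem_insert_self X s))⟩
    have h2 := h𝒯.2 s hs
    unfold AInf at h2 ⊢
    filter_upwards [mem_AE_iff.1 h1, h2] with x h3 h4 hxp N
    by_cases hxq : x ∈ q.1
    · obtain ⟨n, hn, h5, h6⟩ := h3 hxq N
      exact ⟨n, hn, h5, Or.inl h6⟩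
    · obtain ⟨n, hn, h5⟩ := h4 hxp N
      exact ⟨n, hn, h5, Or.inr hxq⟩
  · intro h
    refine mem_fex_of (hat μ Y) fun r hr => ⟨same_of fun _ _ _ => Iff.rfl, fun t ht => ?_⟩
    refine ⟨t, le_rfl, t, ⟨_, h, same_of_ae hY hY' ?_⟩, le_rfl⟩
    have : ∀ᵐ x ∂μ, x ∈ t.1 → x ∈ q.1 := mem_AE_iff.1 (ht.trans hr)
    filter_upwards [this] with x h1 h2 n
    exact ⟨fun h3 => Or.inl h3, fun h3 => h3.resolve_right fun h4 => h4 (h1 h2)⟩

theorem mem_fam_of {Y : ℕ → Set Ω} (hY : Y ∈ 𝒯) (q : Cond μ) :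
    q ∈ Mem (hat μ Y) (fam μ 𝒯) := by
  refine mem_fex_of (hat μ Y) fun r hr => ⟨same_of fun _ _ _ => Iff.rfl, fun t ht => ?_⟩
  exact ⟨t, le_rfl, t, ⟨Y, hY, same_of fun _ _ _ => Iff.rfl⟩, le_rfl⟩

/-- Upward closure. -/
theorem up_fam {Y Z : ℕ → Set Ω} (hZ : Meas Z) {q : Cond μ}
    (h : (fun n => Y n ∪ q.1ᶜ) ∈ 𝒯)
    (hYZ : ∀ᵐ x ∂μ, x ∈ q.1 → ∃ N, ∀ n, N ≤ n → x ∈ Y n → x ∈ Z n) :
    (fun n => Z n ∪ q.1ᶜ) ∈ 𝒯 := by
  classical
  refine hmax _ (fun n => (hZ n).union q.2.1.compl) fun s hs => ?_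
  have h1 := h𝒯.2 (insert (fun n => Y n ∪ q.1ᶜ) s) (by
    rw [Finset.coe_insert]
    exact insert_subset h hs)
  unfold AInf at h1 ⊢
  filter_upwards [h1, hYZ] with x h2 h3 hxp N
  by_cases hxq : x ∈ q.1
  · obtain ⟨N', hN'⟩ := h3 hxq
    obtain ⟨n, hn, h4⟩ := h2 hxp (max N N')
    refine ⟨n, (le_max_left _ _).trans hn, fun X hX => h4 X (Finset.mem_insert_of_mem hX), ?_⟩
    have h5 := h4 _ (Finset.mem_insert_self _ s)
    rcases h5 with h5 | h5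
    · exact Or.inl (hN' n ((le_max_right _ _).trans hn) h5)
    · exact absurd hxq h5
  · obtain ⟨n, hn, h4⟩ := h2 hxp N
    exact ⟨n, hn, fun X hX => h4 X (Finset.mem_insert_of_mem hX), Or.inr hxq⟩

theorem isFilter_fam : p ∈ IsFilter (fam μ 𝒯) := by
  classical
  have huniv : (fun _ => univ : ℕ → Set Ω) ∈ 𝒯 := hmax _ (fun _ => MeasurableSet.univ)
    fun s hs => by
      have h1 := h𝒯.2 s hs
      unfold AInf at h1 ⊢
      filter_upwards [h1] with x h2 hxp N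
      obtain ⟨n, hn, h3⟩ := h2 hxp N
      exact ⟨n, hn, h3, mem_univ x⟩
  refine ⟨?_, ?_, ?_, ?_⟩
  · exact mem_fex_of (hat μ fun _ => univ) fun q _ => mem_fam_of h𝒯 hmax huniv q
  · intro A
    obtain ⟨X, hX, hA⟩ := exists_hat' A
    beta_reduce
    rw [mem_congr hA, inf_congr hA, mem_fimp_reg (reg_mem _ _).1 (reg_inf _)]
    intro q hqp hq
    rw [mem_fam h𝒯 hmax hX hqp] at hq
    rw [inf_hat hX, mem_AE_iff]
    have h1 := h𝒯.2 {fun n => X n ∪ q.1ᶜ} (by simpa using hq)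
    have h2 : ∀ᵐ x ∂μ, x ∈ q.1 → x ∈ p.1 := mem_AE_iff.1 hqp
    unfold AInf at h1
    filter_upwards [h1, h2] with x h3 h4 h5 N
    obtain ⟨n, hn, h6⟩ := h3 (h4 h5) N
    have h7 := h6 _ (Finset.mem_singleton_self _)
    exact ⟨n, hn, h7.resolve_right fun h8 => h8 h5⟩
  · intro A B
    obtain ⟨X, hX, hA⟩ := exists_hat' A
    obtain ⟨Y, hY, hB⟩ := exists_hat' B
    beta_reduce
    rw [mem_congr hA, mem_congr hB, almostSub_congr hA hB,
      mem_fimp_reg (down_fand (reg_mem _ _).1 (reg_almostSub _ _).1) (reg_mem _ _)]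
    rintro q hqp ⟨hq, hq'⟩
    rw [mem_fam h𝒯 hmax hX hqp] at hq
    rw [almostSub_hat hX hY, mem_AE_iff] at hq'
    rw [mem_fam h𝒯 hmax hY hqp]
    exact up_fam h𝒯 hmax hY hq hq'
  · intro A B
    obtain ⟨X, hX, hA⟩ := exists_hat' A
    obtain ⟨Y, hY, hB⟩ := exists_hat' B
    simp only [mem_congr hA, mem_congr hB, sub_congr hA, sub_congr hB]
    rw [mem_fimp_reg (down_fand (reg_mem _ _).1 (reg_mem _ _).1) (reg_fex _)]
    rintro q hqp ⟨hq, hq'⟩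
    rw [mem_fam h𝒯 hmax hX hqp] at hq
    rw [mem_fam h𝒯 hmax hY hqp] at hq'
    have hC : Meas fun n => X n ∩ Y n := fun n => (hX n).inter (hY n)
    have h0 : (fun n => (X n ∩ Y n) ∪ q.1ᶜ) ∈ 𝒯 := by
      refine hmax _ (fun n => (hC n).union q.2.1.compl) fun s hs => ?_
      have h1 := h𝒯.2 (insert (fun n => X n ∪ q.1ᶜ) (insert (fun n => Y n ∪ q.1ᶜ) s)) (by
        rw [Finset.coe_insert, Finset.coe_insert]
        exact insert_subset hq (insert_subset hq' hs))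
      unfold AInf at h1 ⊢
      filter_upwards [h1] with x h2 hxp N
      obtain ⟨n, hn, h3⟩ := h2 hxp N
      refine ⟨n, hn, fun Z hZ => h3 Z (Finset.mem_insert_of_mem (Finset.mem_insert_of_mem hZ)), ?_⟩
      have h4 := h3 _ (Finset.mem_insert_self _ _)
      have h5 := h3 _ (Finset.mem_insert_of_mem (Finset.mem_insert_self _ _))
      rcases h4 with h4 | h4
      · rcases h5 with h5 | h5
        · exact Or.inl ⟨h4, h5⟩
        · exact Or.inr h5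
      · exact Or.inr h4
    refine (reg_fex _).2 _ fun r hr => ⟨r, le_rfl, mem_fex_of (hat μ fun n => X n ∩ Y n)
      fun t ht => ⟨?_, ?_, ?_⟩⟩
    · exact (reg_mem _ _).1 _ ((mem_fam h𝒯 hmax hC hqp).2 h0) _ (ht.trans hr)
    · rw [sub_hat hC hX, mem_AE_iff]
      exact ae_of_all _ fun x _ n h => h.1
    · rw [sub_hat hC hY, mem_AE_iff]
      exact ae_of_all _ fun x _ n h => h.2

theorem isUltra_fam : p ∈ IsUltra (fam μ 𝒯) := by
  classical
  refine ⟨isFilter_fam h𝒯 hmax, fun A B => ?_⟩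
  obtain ⟨X, hX, hA⟩ := exists_hat' A
  obtain ⟨Y, hY, hB⟩ := exists_hat' B
  beta_reduce
  rw [mem_congr hA, mem_congr hB, cover_congr hA hB,
    mem_fimp_reg (reg_cover _ _).1 (reg_disj _ _)]
  intro q hqp hq
  rw [cover_hat hX hY, mem_AE_iff] at hq
  refine mem_disj.2 fun r hr => ?_
  have hrp : r ≤ p := hr.trans hqp
  by_cases hbad : ∃ s : Finset (ℕ → Set Ω), (s : Set (ℕ → Set Ω)) ⊆ 𝒯 ∧ ∃ t ≤ r,
      ∀ᵐ x ∂μ, x ∈ t.1 → ∃ N, ∀ n, N ≤ n → (∀ Z ∈ s, x ∈ Z n) → x ∉ X n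
  · obtain ⟨s, hs, t, ht, h1⟩ := hbad
    have htp : t ≤ p := ht.trans hrp
    refine ⟨t, ht, Or.inr ?_⟩
    rw [mem_fam h𝒯 hmax hY htp]
    refine hmax _ (fun n => (hY n).union t.2.1.compl) fun s' hs' => ?_
    have h2 := h𝒯.2 (s ∪ s') (by
      rw [Finset.coe_union]
      exact union_subset hs hs')
    have h3 : ∀ᵐ x ∂μ, x ∈ t.1 → x ∈ q.1 := mem_AE_iff.1 (ht.trans hr)
    unfold AInf at h2 ⊢
    filter_upwards [h1, h2, h3, hq] with x h4 h5 h6 h7 hxp N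
    by_cases hxt : x ∈ t.1
    · obtain ⟨N', hN'⟩ := h4 hxt
      obtain ⟨n, hn, h8⟩ := h5 hxp (max N N')
      refine ⟨n, (le_max_left _ _).trans hn, fun Z hZ => h8 Z (Finset.mem_union_right _ hZ), ?_⟩
      have h9 := hN' n ((le_max_right _ _).trans hn) fun Z hZ => h8 Z (Finset.mem_union_left _ hZ)
      exact Or.inl ((h7 (h6 hxt) n).resolve_left h9)
    · obtain ⟨n, hn, h8⟩ := h5 hxp N
      exact ⟨n, hn, fun Z hZ => h8 Z (Finset.mem_union_right _ hZ), Or.inr hxt⟩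
  · refine ⟨r, le_rfl, Or.inl ?_⟩
    rw [mem_fam h𝒯 hmax hX hrp]
    refine hmax _ (fun n => (hX n).union r.2.1.compl) fun s hs => ?_
    let G : Set Ω := {x | ∀ N, ∃ n, N ≤ n ∧ (∀ Z ∈ s, x ∈ Z n) ∧ x ∈ X n}
    have hG : MeasurableSet G := by
      have : G = ⋂ N : ℕ, ⋃ n : ℕ, ⋃ (_ : N ≤ n), (⋂ Z ∈ s, Z n) ∩ X n := by
        ext x
        simp only [G, mem_iInter, mem_iUnion, mem_inter_iff, exists_prop, mem_ofPred_eq]
      rw [this]
      refine MeasurableSet.iInter fun N => MeasurableSet.iUnion fun n =>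
        MeasurableSet.iUnion fun _ => MeasurableSet.inter ?_ (hX n)
      exact s.measurableSet_biInter fun Z hZ => h𝒯.1 Z (hs hZ) n
    have h1 : r ∈ AE μ G := by
      rw [mem_AE]
      by_contra hne
      have hne' : μ (r.1 ∩ Gᶜ) ≠ 0 := hne
      refine hbad ⟨s, hs, restr r Gᶜ hG.compl hne', restr_le _ _ _ _, ?_⟩
      refine ae_of_all _ fun x hx => ?_
      have hx2 : x ∉ G := hx.2
      simp only [G, mem_ofPred_eq, not_forall, not_exists, not_and] at hx2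
      obtain ⟨N, hN⟩ := hx2
      exact ⟨N, fun n hn h => hN n hn h⟩
    have h2 := h𝒯.2 s hs
    unfold AInf at h2 ⊢
    filter_upwards [mem_AE_iff.1 h1, h2] with x h3 h4 hxp N
    by_cases hxr : x ∈ r.1
    · obtain ⟨n, hn, h5, h6⟩ := h3 hxr N
      exact ⟨n, hn, h5, Or.inl h6⟩
    · obtain ⟨n, hn, h5⟩ := h4 hxp N
      exact ⟨n, hn, h5, Or.inr hxr⟩

end Ultra

end Pool.Agent.KS6_46.PN
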