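import Mathlib
import Pool.Agent.KS6_46.PN.Lower

/-!
# In a measure algebra extension `ω*` is not covered by `ℵ₁` nowhere dense closed sets: the tower
-/

set_option autoImplicit false
set_option linter.unusedSectionVars false

namespace Pool.Agent.KS6_46.PN

open MeasureTheory Set Filter Topology Cardinal Pool.Agent.TH773.PSet

universe u v

theorem disj_congr' {P : Type u} [Preorder P] {A A' B B' : RName P}
    (h : ∀ n, meets (A n) = meets (A' n)) (h' : ∀ n, meets (B n) = meets (B' n)) :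
    Disj A B = Disj A' B' := by
  unfold Disj; simp only [h, h']

variable {Ω : Type u} [m0 : MeasurableSpace Ω] {μ : Measure Ω} [IsFiniteMeasure μ]

/-- `r` forces that some member of `F` is disjoint from `X`. -/
def Hit (F : FName (Cond μ)) (X : ℕ → Set Ω) : Set (Cond μ) :=
  fex fun C : RName (Cond μ) => fand (Mem C F) (Disj (hat μ X) C)

theorem hit_local {F : FName (Cond μ)} {X Y : ℕ → Set Ω} (hX : Meas X) (hY : Meas Y)
    {r : Cond μ} (h : ∀ᵐ x ∂μ, x ∈ r.1 → ∀ n, (x ∈ X n ↔ x ∈ Y n)) (hr : r ∈ Hit F X) :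
    r ∈ Hit F Y := by
  refine mem_fex.2 fun q hq => ?_
  obtain ⟨t, ht, C, h1, h2⟩ := mem_fex.1 hr q hq
  refine ⟨t, ht, C, h1, ?_⟩
  obtain ⟨Z, hZ, hC⟩ := exists_hat' C
  rw [disj_congr' (fun n => rfl) hC, disj_hat hX hZ, mem_AE_iff] at h2
  rw [disj_congr' (fun n => rfl) hC, disj_hat hY hZ, mem_AE_iff]
  have h3 : ∀ᵐ x ∂μ, x ∈ t.1 → x ∈ r.1 := mem_AE_iff.1 (ht.trans hq)
  filter_upwards [h, h2, h3] with x h4 h5 h6 h7 n h8
  exact h5 h7 n ⟨(h4 (h6 h7) n).2 h8.1, h8.2⟩

theorem step {p : Cond μ} {F : FName (Cond μ)} (hF : p ∈ IsNwd F) {Y : ℕ → Set Ω}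
    (hY : Meas Y) (hinf : AInf p fun x n => x ∈ Y n) :
    ∃ X, Meas X ∧ (AInf p fun x n => x ∈ X n) ∧ ASub p X Y ∧ p ∈ Hit F X := by
  have h0 := hF (hat μ Y)
  beta_reduce at h0
  rw [mem_fimp_reg (reg_inf _).1 (reg_fex _)] at h0
  have h1 := h0 p le_rfl (by rw [inf_hat hY, mem_AE_iff]; exact hinf)
  have hreg : ∀ X, Reg (fand (Inf (hat μ X)) (fand (Sub (hat μ X) (hat μ Y)) (Hit F X))) :=
    fun X => reg_fand (reg_inf _) (reg_fand (reg_sub _ _) (reg_fex _))
  obtain ⟨X, hX, hX'⟩ := mix (fun X => fand (Inf (hat μ X)) (fand (Sub (hat μ X) (hat μ Y))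
      (Hit F X))) (fun X => (hreg X).1) (fun X X' hX hX' r h => by
        rintro ⟨h2, h3, h4⟩
        rw [inf_hat hX, mem_AE_iff] at h2
        rw [sub_hat hX hY, mem_AE_iff] at h3
        refine ⟨?_, ?_, hit_local hX hX' h h4⟩
        · rw [inf_hat hX', mem_AE_iff]
          filter_upwards [h, h2] with x h5 h6 h7 N
          obtain ⟨n, hn, h8⟩ := h6 h7 N
          exact ⟨n, hn, (h5 h7 n).1 h8⟩
        · rw [sub_hat hX' hY, mem_AE_iff]
          filter_upwards [h, h3] with x h5 h6 h7 n h8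
          exact h6 h7 n ((h5 h7 n).2 h8)) (q := p) (fun q hq => by
        obtain ⟨r, hr, B, hB⟩ := mem_fex.1 h1 q hq
        obtain ⟨t, ht, C, h2, h3, h4, h5⟩ := mem_fex.1 hB r le_rfl
        obtain ⟨X, hX, hBX⟩ := exists_hat' B
        rw [inf_congr hBX] at h2
        have h3' : t ∈ Sub (hat μ X) (hat μ Y) := by
          unfold Pool.Agent.TH773.PSet.Sub at h3 ⊢
          simpa only [hBX] using h3
        rw [disj_congr' hBX (fun n => rfl)] at h5
        exact ⟨t, ht.trans hr, X, hX, h2, h3', mem_fex_of C fun s hs =>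
          ⟨(reg_mem _ _).1 _ h4 _ hs, (reg_disjoint _ _).1 _ h5 _ hs⟩⟩)
  obtain ⟨h2, h3, h4⟩ := (hreg X).2 p hX'
  rw [inf_hat hX, mem_AE_iff] at h2
  rw [sub_hat hX hY, mem_AE_iff] at h3
  refine ⟨X, hX, h2, ?_, h4⟩
  unfold ASub
  filter_upwards [h3] with x h5 h6
  exact ⟨0, fun n _ h7 => h5 h6 n h7⟩

section Tower

variable {T : Type} [LinearOrder T] [WellFoundedLT T]

/-- The requirements on the `i`-th member of the tower. -/
def Good (p : Cond μ) (F : T → FName (Cond μ)) (i : T) (prev : ∀ j, j < i → ℕ → Set Ω)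
    (X : ℕ → Set Ω) : Prop :=
  Meas X ∧ (AInf p fun x n => x ∈ X n) ∧ (∀ j (h : j < i), ASub p X (prev j h)) ∧
    p ∈ Hit (F i) X

theorem exists_tower (hT : ∀ i : T, (Iio i).Countable) {p : Cond μ} {F : T → FName (Cond μ)}
    (hF : ∀ i, p ∈ IsNwd (F i)) :
    ∃ X : T → ℕ → Set Ω, ∀ i, Good p F i (fun j _ => X j) (X i) := by
  classical
  let X : T → ℕ → Set Ω :=
    (wellFounded_lt (α := T)).fix fun i prev => Classical.epsilon (Good p F i prev)
  have hXeq : ∀ i, X i = Classical.epsilon (Good p F i fun j _ => X j) := fun i =>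
    (wellFounded_lt (α := T)).fix_eq _ i
  refine ⟨X, fun i => ?_⟩
  induction i using WellFoundedLT.induction with
  | ind i ih =>
  have hex : ∃ Y, Good p F i (fun j _ => X j) Y := by
    have hbase : ∃ Y : ℕ → Set Ω, Meas Y ∧ (AInf p fun x n => x ∈ Y n) ∧
        ∀ j, j < i → ASub p Y (X j) := by
      by_cases hne : (Iio i).Nonempty
      · obtain ⟨e, he⟩ := (hT i).exists_eq_range hne
        have he' : ∀ n, e n < i := fun n => by
          have : e n ∈ Iio i := he ▸ mem_range_self n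
          exact this
        obtain ⟨Y, hY, h1, h2⟩ := exists_pseudo (p := p) (X := fun n => X (e n))
          (fun n => (ih _ (he' n)).1) (fun m => by
            obtain ⟨k, hk, hmax⟩ := Finset.exists_max_image (Finset.range (m + 1)) e
              ⟨0, by simp⟩
            have h3 := (ih _ (he' k)).2.1
            have h4 : ∀ j, ASub p (X (e k)) (X (e j)) ∨ m < j := by
              intro j
              by_cases hj : j ≤ m
              · left
                rcases (hmax j (Finset.mem_range.2 (by omega))).lt_or_eq with h | h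
                · exact (ih _ (he' k)).2.2.1 _ h
                · rw [h]
                  exact ae_of_all _ fun x _ => ⟨0, fun n _ h => h⟩
              · exact Or.inr (not_le.1 hj)
            have h5 : ∀ᵐ x ∂μ, ∀ j, j ≤ m → x ∈ p.1 →
                ∃ N, ∀ n, N ≤ n → x ∈ X (e k) n → x ∈ X (e j) n := by
              rw [ae_all_iff]
              intro j
              by_cases hj : j ≤ m
              · rcases h4 j with h | h
                · filter_upwards [h] with x hx _ using hx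
                · exact absurd h (not_lt.2 hj)
              · exact ae_of_all _ fun x h => absurd h hj
            unfold AInf at h3 ⊢
            filter_upwards [h3, h5] with x h6 h7 hxp N
            have h8 : ∀ j, ∃ N, j ≤ m → ∀ n, N ≤ n → x ∈ X (e k) n → x ∈ X (e j) n := by
              intro j
              by_cases hj : j ≤ m
              · obtain ⟨N, hN⟩ := h7 j hj hxp
                exact ⟨N, fun _ => hN⟩
              · exact ⟨0, fun h => absurd h hj⟩
            choose g hg using h8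
            obtain ⟨n, hn, hxn⟩ := h6 hxp (N + ∑ j ∈ Finset.range (m + 1), g j)
            refine ⟨n, by omega, fun j hj => hg j hj n ?_ hxn⟩
            have : g j ≤ ∑ j ∈ Finset.range (m + 1), g j :=
              Finset.single_le_sum (f := g) (fun _ _ => Nat.zero_le _)
                (Finset.mem_range.2 (by omega))
            omega)
        refine ⟨Y, hY, h1, fun j hj => ?_⟩
        have : j ∈ range e := he ▸ hj
        obtain ⟨n, rfl⟩ := this
        exact h2 n
      · rw [not_nonempty_iff_eq_empty] at hne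
        refine ⟨fun _ => univ, fun _ => MeasurableSet.univ,
          ae_of_all _ fun x _ N => ⟨N, le_rfl, mem_univ x⟩, fun j hj => ?_⟩
        have : j ∈ Iio i := hj
        rw [hne] at this
        exact absurd this (notMem_empty j)
    obtain ⟨Y, hY, h1, h2⟩ := hbase
    obtain ⟨Z, hZ, h3, h4, h5⟩ := step (hF i) hY h1
    refine ⟨Z, hZ, h3, fun j hj => ?_, h5⟩
    have h6 := h2 j hj
    unfold ASub at h4 h6 ⊢
    filter_upwards [h4, h6] with x h7 h8 hxp
    obtain ⟨N, hN⟩ := h7 hxp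
    obtain ⟨N', hN'⟩ := h8 hxp
    exact ⟨max N N', fun n hn h => hN' n ((le_max_right _ _).trans hn)
      (hN n ((le_max_left _ _).trans hn) h)⟩
  rw [hXeq i]
  exact Classical.epsilon_spec hex

theorem cen_tower {p : Cond μ} {F : T → FName (Cond μ)} {X : T → ℕ → Set Ω}
    (hX : ∀ i, Good p F i (fun j _ => X j) (X i)) : Cen p (range X) := by
  classical
  refine ⟨?_, fun s hs => ?_⟩
  · rintro _ ⟨i, rfl⟩
    exact (hX i).1
  · obtain ⟨t, ht⟩ : ∃ t : Finset T, s = t.image X := by
      obtain ⟨t, -, ht⟩ := Finset.subset_set_image_iff.1 (by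
        rwa [← image_univ] at hs : (s : Set (ℕ → Set Ω)) ⊆ X '' univ)
      exact ⟨t, ht.symm⟩
    subst ht
    by_cases hne : t.Nonempty
    · obtain ⟨k, hk, hmax⟩ := Finset.exists_max_image t id hne
      have h3 := (hX k).2.1
      have h4 : ∀ j ∈ t, ASub p (X k) (X j) := by
        intro j hj
        rcases (hmax j hj).lt_or_eq with h | h
        · exact (hX k).2.2.1 _ h
        · have h' : j = k := h
          rw [h']
          exact ae_of_all _ fun x _ => ⟨0, fun n _ h => h⟩
      have h5 : ∀ᵐ x ∂μ, ∀ j ∈ t, x ∈ p.1 → ∃ N, ∀ n, N ≤ n → x ∈ X k n → x ∈ X j n := by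
        rw [Filter.eventually_all_finset]
        exact h4
      unfold AInf at h3 ⊢
      filter_upwards [h3, h5] with x h6 h7 hxp N
      have h8 : ∀ j, ∃ N, j ∈ t → ∀ n, N ≤ n → x ∈ X k n → x ∈ X j n := by
        intro j
        by_cases hj : j ∈ t
        · obtain ⟨N, hN⟩ := h7 j hj hxp
          exact ⟨N, fun _ => hN⟩
        · exact ⟨0, fun h => absurd h hj⟩
      choose g hg using h8
      obtain ⟨n, hn, hxn⟩ := h6 hxp (N + ∑ j ∈ t, g j)
      refine ⟨n, by omega, fun Z hZ => ?_⟩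
      obtain ⟨j, hj, rfl⟩ := Finset.mem_image.1 hZ
      have : g j ≤ ∑ j ∈ t, g j := Finset.single_le_sum (f := g) (fun _ _ => Nat.zero_le _) hj
      exact hg j hj n (by omega) hxn
    · rw [Finset.not_nonempty_iff_eq_empty] at hne
      subst hne
      exact ae_of_all _ fun x _ N => ⟨N, le_rfl, fun Z hZ => by simp at hZ⟩

theorem not_covered_tower (hT : ∀ i : T, (Iio i).Countable) (p : Cond μ) :
    p ∉ CoveredByNwd T (Cond μ) := by
  intro hp
  obtain ⟨p, -, F, hF, hcov⟩ := mem_fex.1 hp p le_rfl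
  obtain ⟨X, hX⟩ := exists_tower hT (p := p) (F := F) fun i => (hF i).2
  obtain ⟨𝒯, hsub, h𝒯, hmax⟩ := exists_max (cen_tower hX)
  have hU := isUltra_fam h𝒯 hmax
  have h1 := hcov (fam μ 𝒯)
  beta_reduce at h1
  rw [mem_fimp_reg (reg_isUltra _).1 (reg_fex _)] at h1
  obtain ⟨r, hr, i, hi⟩ := mem_fex.1 (h1 p le_rfl hU) p le_rfl
  obtain ⟨t, ht, C, h2, h3⟩ := mem_fex.1 (hX i).2.2.2 r hr
  have h4 : t ∈ Mem C (fam μ 𝒯) := by
    have h5 := hi C
    beta_reduce at h5
    rw [mem_fimp_reg (reg_mem _ _).1 (reg_mem _ _)] at h5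
    exact h5 t ht h2
  obtain ⟨Z, hZ, hC⟩ := exists_hat' C
  rw [mem_congr hC, mem_fam h𝒯 hmax hZ (ht.trans hr)] at h4
  rw [disj_congr' (fun n => rfl) hC, disj_hat (hX i).1 hZ, mem_AE_iff] at h3
  classical
  have h5 := h𝒯.2 {fun n => Z n ∪ t.1ᶜ, X i} (by
    rw [Finset.coe_insert, Finset.coe_singleton]
    exact insert_subset h4 (singleton_subset_iff.2 (hsub (mem_range_self i))))
  have h6 : ∀ᵐ x ∂μ, x ∈ t.1 → x ∈ p.1 := mem_AE_iff.1 (ht.trans hr)
  unfold AInf at h5
  refine t.2.2 (measure_eq_zero_iff_ae_notMem.2 ?_)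
  filter_upwards [h3, h5, h6] with x h7 h8 h9 hxt
  obtain ⟨n, -, h10⟩ := h8 (h9 hxt) 0
  have h11 := h10 _ (Finset.mem_insert_self _ _)
  have h12 := h10 (X i) (Finset.mem_insert_of_mem (Finset.mem_singleton_self _))
  exact h7 hxt n ⟨h12, h11.resolve_right fun h => h hxt⟩

end Tower

/-- In a measure algebra extension `ω*` is not covered by `ℵ₁` nowhere dense closed sets. -/
theorem not_covered {Ξ : Type} (hΞ : #Ξ ≤ ℵ₁) (p : Cond μ) : p ∉ CoveredByNwd Ξ (Cond μ) := by
  intro hp
  by_cases hne : Nonempty Ξ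
  · obtain ⟨f⟩ : Nonempty (Ξ ↪ (ℵ₁ : Cardinal.{0}).ord.ToType) := by
      rw [← Cardinal.le_def, mk_ord_toType]
      exact hΞ
    have hs : Function.Surjective (Function.invFun f) := Function.invFun_surjective f.injective
    refine not_covered_tower (T := (ℵ₁ : Cardinal.{0}).ord.ToType) (fun i => ?_) p
      (?_ : p ∈ CoveredByNwd _ (Cond μ))
    · rw [← le_aleph0_iff_set_countable, ← lt_aleph_one_iff]
      simpa using mk_Iio_lt i
    · refine mem_fex.2 fun q hq => ?_
      obtain ⟨r, hr, F, h1, h2⟩ := mem_fex.1 hp q hq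
      refine ⟨r, hr, fun i => F (Function.invFun f i), fun i => h1 _, fun U => ?_⟩
      have h3 := h2 U
      beta_reduce at h3 ⊢
      rw [mem_fimp_reg (reg_isUltra _).1 (reg_fex _)] at h3 ⊢
      intro t ht hU
      refine mem_fex.2 fun t' ht' => ?_
      obtain ⟨v, hv, i, hi⟩ := mem_fex.1 (h3 t ht hU) t' ht'
      obtain ⟨j, rfl⟩ := hs i
      exact ⟨v, hv, j, hi⟩
  · rw [not_nonempty_iff] at hne
    obtain ⟨p, -, F, hF, hcov⟩ := mem_fex.1 hp p le_rfl
    obtain ⟨𝒯, hsub, h𝒯, hmax⟩ := exists_max (p := p) (𝒮 := ∅) ⟨fun X hX => absurd hX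
      (notMem_empty X), fun s hs => ae_of_all _ fun x _ N => ⟨N, le_rfl, fun Z hZ =>
        absurd (hs hZ) (notMem_empty Z)⟩⟩
    have hU := isUltra_fam h𝒯 hmax
    have h1 := hcov (fam μ 𝒯)
    beta_reduce at h1
    rw [mem_fimp_reg (reg_isUltra _).1 (reg_fex _)] at h1
    obtain ⟨r, hr, i, hi⟩ := mem_fex.1 (h1 p le_rfl hU) p le_rfl
    exact hne.elim i

end Pool.Agent.KS6_46.PN
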