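import Mathlib
import Pool.Graph.R_seed8.TH773.PSet.Prod
import Pool.Agent.KS6_46.PN.Defs

/-!
# Few nowhere dense P-sets cover `ω*` in a random extension
-/

set_option autoImplicit false
set_option linter.unusedSectionVars false

namespace Pool.Agent.KS6_46.PN

open MeasureTheory Set Filter Topology Cardinal Pool.Agent.TH773.PSet

universe u

/-- A family of weights which dominates all null sequences. -/
structure Weights {K : Type} (M : K → ℕ → ENNReal) : Prop where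
  ne_top : ∀ i k, M i k ≠ ⊤
  lim : ∀ i, Tendsto (M i) atTop (𝓝 0)
  sum : ∀ i, W (M i) univ = ⊤
  dom : ∀ m : ℕ → ENNReal, Tendsto m atTop (𝓝 0) → ∃ i, ∃ N, ∀ k, N ≤ k → m k ≤ M i k

variable {Ω : Type u} [m0 : MeasurableSpace Ω] {μ : Measure Ω} [IsFiniteMeasure μ]

theorem wt_mono {m m' : ℕ → ENNReal} (h : ∀ k, m k ≤ m' k) (X : ℕ → Set Ω) (x : Ω) :
    wt m X x ≤ wt m' X x := by
  unfold wt
  refine ENNReal.tsum_le_tsum fun k => ?_
  by_cases hk : x ∈ X k <;> simp [hk, h k]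

theorem incl_famB' {K : Type} {M : K → ℕ → ENNReal} (hM : Weights M) {𝓕 𝓖 : Set Ω → Prop}
    (h𝓖 : IsClass 𝓖) (hind : ∀ A B, 𝓕 A → 𝓖 B → μ (A ∩ B) = μ A * μ B) {U : FName (Cond μ)}
    {p : Cond μ} (hU : p ∈ IsUltra U) {E : K → ℕ → Set Ω} (hE : ∀ m n, 𝓕 (E m n))
    (hEm : ∀ m, Meas (E m)) (hE1 : ∀ i, p ∈ Mem (hat μ (E i)) U ∧ ∀ x, wt (M i) (E i) x ≤ 1) :
    p ∈ Incl (famB μ 𝓖) U := by
  intro A
  obtain ⟨X, hX, hA⟩ := exists_hat' A
  beta_reduce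
  rw [mem_congr hA, mem_congr hA, mem_fimp_reg (reg_mem _ _).1 (reg_mem _ _)]
  intro q hqp hq
  rw [mem_famB h𝓖 hX] at hq
  obtain ⟨w, hw, hq⟩ := hq
  obtain ⟨i, N0, hi⟩ := hM.dom (fun n => μ (w n)) hw.2
  obtain ⟨h1, h2⟩ := hE1 i
  have hw' : Small μ 𝓖 (fun n => if N0 ≤ n then w n else ∅) := by
    refine ⟨fun n => ?_, ?_⟩
    · dsimp only
      split_ifs
      · exact hw.1 n
      · exact h𝓖.empty
    · refine tendsto_of_tendsto_of_tendsto_of_le_of_le tendsto_const_nhds hw.2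
        (fun _ => bot_le) fun n => ?_
      dsimp only
      split_ifs
      · exact le_rfl
      · simp
  have h3 := ae_finite_inter hind hw' (hE _) (hEm i) (fun x => (wt_mono (fun k => ?_) _ x).trans
    (h2 x))
  · have h4 : q ∈ AlmostSub (hat μ (E i)) (hat μ X) := by
      rw [almostSub_hat (hEm _) hX, mem_AE_iff]
      filter_upwards [hq, h3] with x h5 h6 h7
      obtain ⟨N, hN⟩ := h5 h7
      obtain ⟨N', hN'⟩ := h6
      refine ⟨max (max N N') N0, fun n hn hxn =>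
        hN n (((le_max_left _ _).trans (le_max_left _ _)).trans hn)
        fun h => hN' n (((le_max_right _ _).trans (le_max_left _ _)).trans hn) ⟨hxn, ?_⟩⟩
      rw [if_pos ((le_max_right _ _).trans hn)]
      exact h
    have h5 := hU.1.2.2.1 (hat μ (E i)) (hat μ X)
    rw [mem_fimp_reg (down_fand (reg_mem _ _).1 (reg_almostSub _ _).1) (reg_mem _ _)] at h5
    exact h5 q hqp ⟨(reg_mem _ _).1 _ h1 _ hqp, h4⟩
  · split_ifs with h
    · exact hi k h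
    · simp

/-- A condition forces the existence of a light random set in `U`. -/
theorem exists_light {U : FName (Cond μ)} {m : ℕ → ENNReal} {q' : Cond μ}
    (h : ∀ r ≤ q', ∃ s ≤ r, ∃ X, Meas X ∧ s ∈ Light U m X) :
    ∃ E : ℕ → Set Ω, Meas E ∧ q' ∈ Mem (hat μ E) U ∧ ∀ x, wt m E x ≤ 1 := by
  obtain ⟨X, hX, hX'⟩ := mix (Light U m) (fun X s hs t ht => by
      refine ⟨(reg_mem _ _).1 _ hs.1 _ ht, ?_⟩
      have : ∀ᵐ x ∂μ, x ∈ t.1 → x ∈ s.1 := mem_AE_iff.1 ht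
      filter_upwards [this, hs.2] with x h1 h2 h3 using h2 (h1 h3))
    (fun X Y hX hY r h hr => by
      refine ⟨mem_of_same (same_of_ae hX hY h) hr.1, ?_⟩
      filter_upwards [h, hr.2] with x h1 h2 h3
      have h4 := h2 h3
      rw [wt_eq] at h4 ⊢
      have e : {k | x ∈ Y k} = {k | x ∈ X k} := by
        ext k
        exact (h1 h3 k).symm
      rw [e]
      exact h4) (q := q') (fun q'' hq'' => by
      obtain ⟨s, hs, X, hX, h⟩ := h q'' hq''
      exact ⟨s, hs, X, hX, h⟩)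
  have hE : Meas fun n => X n ∩ {x | wt m X x ≤ 1} :=
    fun n => (hX n).inter (measurableSet_wt hX 1)
  refine ⟨fun n => X n ∩ {x | wt m X x ≤ 1}, hE, ?_, fun x => ?_⟩
  · refine (reg_mem _ _).2 _ fun q'' hq'' => ?_
    obtain ⟨s, hs, h⟩ := hX' q'' hq''
    refine ⟨s, hs, mem_of_same (same_of_ae hX hE ?_) h.1⟩
    filter_upwards [h.2] with x h1 h2 n
    exact ⟨fun h3 => ⟨h3, h1 h2⟩, fun h3 => h3.1⟩
  · by_cases hx : wt m X x ≤ 1
    · rw [wt_eq] at hx ⊢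
      exact (W_mono fun k hk => hk.1).trans hx
    · rw [wt_eq]
      have e : {k | x ∈ X k ∩ {x | wt m X x ≤ 1}} = ∅ := by
        ext k
        simp [hx]
      rw [e]
      simp [W]

variable (μ) in
/-- The class `𝓖` of sets is tall: the sparse random sets in the class meet all infinite random
sets in an infinite set. -/
def Tall (𝓖 : Set Ω → Prop) : Prop :=
  ∀ b : ℕ → Set Ω, (∀ n, MeasurableSet (b n)) →
    (∀ᵐ x ∂μ, ∀ N, ∃ n, N ≤ n ∧ x ∈ b n) →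
      ∃ w : ℕ → Set Ω, Small μ 𝓖 w ∧ ∀ᵐ x ∂μ, ∀ N, ∃ n, N ≤ n ∧ x ∈ b n ∧ x ∈ w n

theorem coveredBy_of {K Λ₀ Λ : Type} {M : K → ℕ → ENNReal} (hM : Weights M)
    {𝓖 : Λ₀ → Set Ω → Prop} (h𝓖 : ∀ a, IsClass (𝓖 a)) (htall : ∀ a, Tall μ (𝓖 a))
    (hind : ∀ E : K → ℕ → Set Ω, (∀ i, Meas (E i)) →
      ∃ a, ∃ 𝓕 : Set Ω → Prop, (∀ i n, 𝓕 (E i n)) ∧
        ∀ A B, 𝓕 A → 𝓖 a B → μ (A ∩ B) = μ A * μ B)
    {s : Λ → K ⊕ Λ₀} (hs : Function.Surjective s) (p : Cond μ) :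
    p ∈ CoveredBy Λ (Cond μ) := by
  classical
  let F : K ⊕ Λ₀ → FName (Cond μ) := Sum.elim (fun i => famA μ (M i)) fun a => famB μ (𝓖 a)
  refine mem_fex_of (fun l => F (s l)) fun p' _ => ⟨fun l => ?_, fun U => ?_⟩
  · show p' ∈ fand (IsFilter (F (s l))) (fand (IsP (F (s l))) (IsNwd (F (s l))))
    rcases s l with i | a
    · exact ⟨isFilter_famA (hM.ne_top i) (hM.sum i) p', isP_famA p', isNwd_famA (hM.lim i) p'⟩
    · exact ⟨isFilter_famB (h𝓖 a) p', isP_famB (h𝓖 a) p', isNwd_famB (h𝓖 a) (htall a) p'⟩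
  · rw [mem_fimp_reg (reg_isUltra U).1 (reg_fex _)]
    intro q _ hq
    refine mem_fex.2 fun q' hq' => ?_
    have hU : q' ∈ IsUltra U := (reg_isUltra U).1 _ hq _ hq'
    by_cases hA : ∃ i, ∃ r ≤ q', ∀ s ≤ r, ∀ X, Meas X → s ∉ Light U (M i) X
    · obtain ⟨i, r, hr, hno⟩ := hA
      have hU' : r ∈ IsUltra U := (reg_isUltra U).1 _ hU _ hr
      obtain ⟨l, hl⟩ := hs (Sum.inl i)
      refine ⟨r, hr, l, ?_⟩
      show r ∈ Incl (F (s l)) U
      rw [hl]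
      exact incl_famA hU' hno
    · push Not at hA
      choose E hE hE' using fun i => exists_light (hA i)
      obtain ⟨a, 𝓕, hEF, hind⟩ := hind E hE
      obtain ⟨l, hl⟩ := hs (Sum.inr a)
      refine ⟨q', le_rfl, l, ?_⟩
      show q' ∈ Incl (F (s l)) U
      rw [hl]
      exact incl_famB' hM (h𝓖 a) hind hU hEF hE hE'

end Pool.Agent.KS6_46.PN
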