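import Mathlib
import Pool.Agent.KS6_46.PN.Main

/-!
# Dominating families of weights, and blocks of random reals
-/

set_option autoImplicit false
set_option linter.unusedSectionVars false

namespace Pool.Agent.KS6_46.PN

open MeasureTheory Set Filter Topology Cardinal Pool.Agent.TH773.PSet

/-! ### The dominating number -/

theorem exists_dominating : ∃ D : Set (ℕ → ℕ), #D = 𝔡 ∧ Dominating D := by
  have hne : {κ : Cardinal.{0} | ∃ D : Set (ℕ → ℕ), #D = κ ∧ Dominating D}.Nonempty :=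
    ⟨#(univ : Set (ℕ → ℕ)), univ, rfl, fun f => ⟨f, mem_univ f, 0, fun _ _ => le_rfl⟩⟩
  exact csInf_mem hne

theorem d_le_continuum : 𝔡 ≤ 𝔠 := by
  have h : 𝔡 ≤ #(univ : Set (ℕ → ℕ)) :=
    csInf_le' ⟨univ, rfl, fun f => ⟨f, mem_univ f, 0, fun _ _ => le_rfl⟩⟩
  refine h.trans ?_
  rw [mk_univ]
  simp

theorem aleph0_le_d : ℵ₀ ≤ 𝔡 := by
  obtain ⟨D, hD, hdom⟩ := exists_dominating
  rw [← hD]
  by_contra hlt
  rw [not_le, lt_aleph0_iff_set_finite] at hlt
  obtain ⟨g, hg, N, hN⟩ := hdom fun n => (∑ g ∈ hlt.toFinset, g n) + 1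
  have h1 := hN N le_rfl
  have h2 : g N ≤ ∑ g ∈ hlt.toFinset, g N :=
    Finset.single_le_sum (f := fun g : ℕ → ℕ => g N) (fun _ _ => Nat.zero_le _)
      (hlt.mem_toFinset.2 hg)
  omega

/-! ### Weights -/

/-- The largest `n ≤ k` with `g j ≤ k` for all `j ≤ n`. -/
noncomputable def len (g : ℕ → ℕ) (k : ℕ) : ℕ :=
  open Classical in Nat.findGreatest (fun n => ∀ j ≤ n, g j ≤ k) k

theorem le_len (g : ℕ → ℕ) (n : ℕ) : ∃ N, ∀ k, N ≤ k → n ≤ len g k := by
  classical
  refine ⟨n + ∑ j ∈ Finset.range (n + 1), g j, fun k hk => ?_⟩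
  unfold len
  refine Nat.le_findGreatest (P := fun n => ∀ j ≤ n, g j ≤ k) (by omega) fun j hj => ?_
  have : g j ≤ ∑ j ∈ Finset.range (n + 1), g j :=
    Finset.single_le_sum (f := g) (fun _ _ => Nat.zero_le _)
      (Finset.mem_range.2 (Nat.lt_succ_of_le hj))
  omega

theorem len_spec (g : ℕ → ℕ) {k : ℕ} (h : len g k ≠ 0) : g (len g k) ≤ k := by
  classical
  have := Nat.findGreatest_of_ne_zero (P := fun n => ∀ j ≤ n, g j ≤ k) (n := k) rfl h
  exact this _ le_rfl

/-- The weight which belongs to a function. -/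
noncomputable def wgt (g : ℕ → ℕ) (k : ℕ) : ENNReal :=
  ((k : ENNReal) + 1)⁻¹ + (2 : ENNReal)⁻¹ ^ len g k

theorem tendsto_len (g : ℕ → ℕ) : Tendsto (len g) atTop atTop :=
  tendsto_atTop.2 fun n => by
    obtain ⟨N, hN⟩ := le_len g n
    exact eventually_atTop.2 ⟨N, hN⟩

theorem weights {D : Set (ℕ → ℕ)} (hD : Dominating D) : Weights fun (g : D) k => wgt g.1 k where
  ne_top g k := by
    unfold wgt
    refine ENNReal.add_ne_top.2 ⟨?_, ?_⟩
    · exact ENNReal.inv_ne_top.2 (by positivity)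
    · exact ENNReal.pow_ne_top (by simp)
  lim g := by
    unfold wgt
    have h1 : Tendsto (fun k : ℕ => ((k : ENNReal) + 1)⁻¹) atTop (𝓝 0) := by
      have h := ENNReal.tendsto_inv_nat_nhds_zero.comp (tendsto_add_atTop_nat 1)
      refine h.congr fun k => ?_
      simp
    have h2 := ENNReal.tendsto_pow_atTop_nhds_zero_of_lt_one
      (r := (2 : ENNReal)⁻¹) (ENNReal.inv_lt_one.2 (by norm_num))
    have h3 := h1.add (h2.comp (tendsto_len g.1))
    simpa using h3
  sum g := by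
    unfold W
    rw [eq_top_iff]
    have h1 : ∑' k : ℕ, ((k : ENNReal) + 1)⁻¹ = ⊤ := by
      have h := ENNReal.tsum_const_eq_top_of_ne_zero (α := ℕ) (c := 1) one_ne_zero
      by_contra hne
      have h2 : Summable fun k : ℕ => (1 : ℝ) / ((k : ℝ) + 1) := by
        have h3 := ENNReal.summable_toReal hne
        refine h3.congr fun k => ?_
        rw [ENNReal.toReal_inv, ENNReal.toReal_add (by simp) (by simp)]
        simp
      have h4 : ¬ Summable fun k : ℕ => (1 : ℝ) / ((k : ℝ) + 1) := by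
        have h5 := (summable_nat_add_iff (f := fun k : ℕ => (1 : ℝ) / (k : ℝ)) 1).not.2
          Real.not_summable_one_div_natCast
        refine fun h6 => h5 (h6.congr fun k => ?_)
        push_cast
        rfl
      exact h4 h2
    rw [← h1]
    refine ENNReal.tsum_le_tsum fun k => ?_
    rw [indicator_of_mem (mem_univ k)]
    exact le_self_add
  dom m hm := by
    have h1 : ∀ n, ∃ N, ∀ k, N ≤ k → m k ≤ (2 : ENNReal)⁻¹ ^ n := fun n =>
      eventually_atTop.1 (hm.eventually (ge_mem_nhds (two_pos n)))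
    choose f hf using h1
    obtain ⟨g, hg, n0, hn0⟩ := hD f
    obtain ⟨N, hN⟩ := le_len g (n0 + 1)
    refine ⟨⟨g, hg⟩, N, fun k hk => ?_⟩
    have h2 := hN k hk
    have h3 := len_spec g (k := k) (by omega)
    have h4 : f (len g k) ≤ k := (hn0 _ (by omega)).trans h3
    exact (hf _ k h4).trans le_add_self

/-! ### Blocks of random reals -/

theorem coveredBy_random {I Λ : Type} (hI : 𝔡 < #I) (hΛ : 𝔡 < #Λ) (p : Random I) :
    p ∈ CoveredBy Λ (Random I) := by
  classical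
  obtain ⟨D, hDd, hD⟩ := exists_dominating
  let Λ₀ : Type := (Order.succ 𝔡).out
  let Ξ : Type := (ℵ₁ : Cardinal.{0}).out
  have hΛ₀ : #Λ₀ = Order.succ 𝔡 := mk_out _
  have hΞ : #Ξ = ℵ₁ := mk_out _
  have hω : (ℵ₁ : Cardinal.{0}) ≤ Order.succ 𝔡 := by
    rw [← succ_aleph0]
    exact Order.succ_le_succ aleph0_le_d
  have h0 : ℵ₀ ≤ Order.succ 𝔡 := aleph0_le_d.trans (Order.le_succ _)
  obtain ⟨j⟩ : Nonempty (Λ₀ × Ξ ↪ I) := by
    rw [← Cardinal.le_def, mk_prod, lift_id, lift_id, hΛ₀, hΞ,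
      mul_eq_left h0 hω (aleph_pos 1).ne']
    exact Order.succ_le_of_lt hI
  obtain ⟨t⟩ : Nonempty (D ⊕ Λ₀ ↪ Λ) := by
    rw [← Cardinal.le_def, mk_sum, lift_id, lift_id, hΛ₀, hDd,
      add_eq_right h0 (Order.le_succ _)]
    exact Order.succ_le_of_lt hΛ
  have hne : Nonempty (D ⊕ Λ₀) := by
    obtain ⟨g, hg, -⟩ := hD fun n => n
    exact ⟨Sum.inl ⟨g, hg⟩⟩
  have hs : Function.Surjective (Function.invFun t) := Function.invFun_surjective t.injective
  let T : Λ₀ → Set (I × ℕ) := fun a => {x | ∃ ξ, x.1 = j (a, ξ)}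
  refine coveredBy_of (weights hD) (𝓖 := fun a => Dep (T a)) (fun a =>
    { empty := dep_empty _
      iUnion := fun f hf => Dep.iUnion hf
      meas := fun A hA => hA.meas }) (fun a => ?_) ?_ hs p
  · intro b hb hinf
    choose S hS hS' using fun n => exists_countable (hb n)
    let B : Set (I × ℕ) := ⋃ n, S n
    have hB : B.Countable := countable_iUnion hS
    have hbd : ∀ n, Dep B (b n) := fun n => (hS' n).mono (subset_iUnion S n)
    obtain ⟨ξ, hξ⟩ : ∃ ξ, j (a, ξ) ∉ Prod.fst '' B := by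
      by_contra hcon
      push Not at hcon
      have h1 : #Ξ ≤ #(Prod.fst '' B : Set I) :=
        mk_le_of_injective (f := fun ξ => (⟨j (a, ξ), hcon ξ⟩ : (Prod.fst '' B : Set I)))
          fun ξ ξ' h => by
            have h2 := j.injective (Subtype.ext_iff.1 h)
            exact (Prod.ext_iff.1 h2).2
      rw [hΞ] at h1
      exact absurd (h1.trans (hB.image _).le_aleph0) (not_le.2 aleph0_lt_aleph_one)
    have hi2 : ∀ x ∈ B, x.1 ≠ j (a, ξ) := fun x hx h => hξ ⟨x, hx, h⟩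
    obtain ⟨w, hw1, hw2, hw3⟩ := exists_sparse hbd hinf (j (a, ξ)) hi2
    have hsub : {x : I × ℕ | x.1 = j (a, ξ)} ⊆ T a := fun x hx => ⟨ξ, hx⟩
    exact ⟨w, ⟨fun n => (hw1 n).mono hsub, hw2⟩, hw3⟩
  · intro E hE
    choose S hS hS' using fun i n => exists_countable (hE i n)
    let Z : Set (I × ℕ) := ⋃ p : D × ℕ, S p.1 p.2
    have hZ : #Z ≤ 𝔡 := by
      refine (mk_iUnion_le_sum_mk).trans ?_
      refine (sum_le_sum (fun p : D × ℕ => #(S p.1 p.2)) (fun _ => ℵ₀)
        fun p => (hS p.1 p.2).le_aleph0).trans ?_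
      rw [sum_const', mk_prod, lift_id, lift_id, mk_nat, hDd, mul_assoc, aleph0_mul_aleph0]
      rw [mul_eq_left aleph0_le_d aleph0_le_d aleph0_ne_zero]
    have hZi : #(Prod.fst '' Z : Set I) ≤ 𝔡 := mk_image_le.trans hZ
    obtain ⟨a, ha⟩ : ∃ a : Λ₀, ∀ ξ, j (a, ξ) ∉ Prod.fst '' Z := by
      by_contra hcon
      push Not at hcon
      choose ξ hξ using hcon
      have h1 : #Λ₀ ≤ #(Prod.fst '' Z : Set I) :=
        mk_le_of_injective (f := fun a => (⟨j (a, ξ a), hξ a⟩ : (Prod.fst '' Z : Set I)))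
          fun a a' h => by
            have h2 := j.injective (Subtype.ext_iff.1 h)
            exact (Prod.ext_iff.1 h2).1
      rw [hΛ₀] at h1
      exact absurd (h1.trans hZi) (not_le.2 (Order.lt_succ _))
    refine ⟨a, Dep {x | x.1 ∈ Prod.fst '' Z}, fun i n => ?_, fun A B hA hB => ?_⟩
    · have h1 : S i n ⊆ {x | x.1 ∈ Prod.fst '' Z} := fun x hx =>
        (⟨x, mem_iUnion.2 ⟨(i, n), hx⟩, rfl⟩ : x.1 ∈ Prod.fst '' Z)
      exact (hS' i n).mono h1
    · refine dep_indep (Set.disjoint_left.2 ?_) hA hB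
      rintro x hx ⟨ξ, hξ⟩
      exact ha ξ (hξ ▸ hx)

end Pool.Agent.KS6_46.PN
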